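import Mathlib

/-!
A ring without the left strong rank condition having an Ore extension with surjective twist that
satisfies the left strong rank condition.
-/

namespace Pool.Agent.Results.MP_5f6a82_al.SurjectiveTwist

/-- The left strong rank condition: for no positive `n` there is an injective homomorphism of left
modules from `A^(n+1)` to `A^n`. -/
def LSRC (A : Type) [Ring A] : Prop :=
  ∀ n : ℕ, 0 < n → ¬ ∃ f : (Fin (n + 1) → A) →ₗ[A] (Fin n → A), Function.Injective f

/-- `S`, with the ring homomorphism `ι` and the element `x`, is the Ore extension of `R` for `σ` and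
`δ`: `x r = σ(r) x + δ(r)` and every element of `S` is a unique finite sum of terms `r_i x^i`. -/
structure IsOreExtension {R S : Type} [Ring R] [Ring S] (σ : R →+* R) (δ : R →+ R) (ι : R →+* S)
    (x : S) : Prop where
  rel : ∀ r : R, x * ι r = ι (σ r) * x + ι (δ r)
  basis : Function.Bijective fun p : ℕ →₀ R => p.sum fun i r => ι r * x ^ i

/-- the free ring on countably many generators -/
abbrev RR : Type := MonoidAlgebra ℤ (FreeMonoid ℕ)

/-- generators -/
noncomputable def gen (i : ℕ) : RR := MonoidAlgebra.of ℤ (FreeMonoid ℕ) (FreeMonoid.of i)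

/-- images of the generators -/
noncomputable def img (i : ℕ) : RR := if i = 0 then 0 else gen (i - 1)

/-- the surjective endomorphism: kill the first generator, shift the others -/
noncomputable def sig : RR →+* RR :=
  (MonoidAlgebra.lift ℤ RR (FreeMonoid ℕ) (FreeMonoid.lift img)).toRingHom

theorem sig_gen (i : ℕ) : sig (gen i) = img i := by
  have : sig (gen i) = MonoidAlgebra.lift ℤ RR (FreeMonoid ℕ) (FreeMonoid.lift img)
      (MonoidAlgebra.of ℤ (FreeMonoid ℕ) (FreeMonoid.of i)) := rfl
  rw [this, MonoidAlgebra.lift_of, FreeMonoid.lift_eval_of]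

theorem sig_gen_zero : sig (gen 0) = 0 := by rw [sig_gen, img, if_pos rfl]

theorem sig_gen_succ (i : ℕ) : sig (gen (i + 1)) = gen i := by
  rw [sig_gen, img, if_neg (Nat.succ_ne_zero i), Nat.add_sub_cancel]

theorem sig_surj : Function.Surjective sig := by
  intro r
  induction r using MonoidAlgebra.induction_on with
  | of w =>
    induction w using FreeMonoid.inductionOn with
    | one => exact ⟨1, by rw [map_one, map_one]⟩
    | of i => exact ⟨gen (i + 1), sig_gen_succ i⟩
    | mul a b ha hb =>
      obtain ⟨a', ha'⟩ := ha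
      obtain ⟨b', hb'⟩ := hb
      exact ⟨a' * b', by rw [map_mul, ha', hb', map_mul]⟩
  | add a b ha hb =>
    obtain ⟨a', ha'⟩ := ha
    obtain ⟨b', hb'⟩ := hb
    exact ⟨a' + b', by rw [map_add, ha', hb']⟩
  | smul n a ha =>
    obtain ⟨a', ha'⟩ := ha
    exact ⟨n • a', by rw [map_zsmul, ha']⟩

/-- iterates of `sig` eventually send everything to integers -/
theorem sig_iter (r : RR) : ∃ m0 : ℕ, ∀ m, m0 ≤ m → ∃ c : ℤ, sig^[m] r = (c : RR) := by
  have hgen : ∀ i m, i < m → sig^[m] (gen i) = 0 := by
    intro i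
    induction i with
    | zero =>
      intro m hm
      obtain ⟨m, rfl⟩ := Nat.exists_eq_succ_of_ne_zero (Nat.pos_iff_ne_zero.mp hm)
      rw [Function.iterate_succ_apply, sig_gen_zero, iterate_map_zero]
    | succ i ih =>
      intro m hm
      obtain ⟨m, rfl⟩ := Nat.exists_eq_succ_of_ne_zero (by omega : m ≠ 0)
      rw [Function.iterate_succ_apply, sig_gen_succ]
      exact ih m (by omega)
  induction r using MonoidAlgebra.induction_on with
  | of w =>
    induction w using FreeMonoid.inductionOn with
    | one => exact ⟨0, fun m _ => ⟨1, by rw [map_one, iterate_map_one, Int.cast_one]⟩⟩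
    | of i => exact ⟨i + 1, fun m hm => ⟨0, by
        rw [Int.cast_zero]; exact hgen i m (by omega)⟩⟩
    | mul a b ha hb =>
      obtain ⟨m1, h1⟩ := ha
      obtain ⟨m2, h2⟩ := hb
      refine ⟨max m1 m2, fun m hm => ?_⟩
      obtain ⟨c1, hc1⟩ := h1 m ((le_max_left _ _).trans hm)
      obtain ⟨c2, hc2⟩ := h2 m ((le_max_right _ _).trans hm)
      exact ⟨c1 * c2, by rw [map_mul, iterate_map_mul, hc1, hc2, Int.cast_mul]⟩
  | add a b ha hb =>
    obtain ⟨m1, h1⟩ := ha
    obtain ⟨m2, h2⟩ := hb
    refine ⟨max m1 m2, fun m hm => ?_⟩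
    obtain ⟨c1, hc1⟩ := h1 m ((le_max_left _ _).trans hm)
    obtain ⟨c2, hc2⟩ := h2 m ((le_max_right _ _).trans hm)
    exact ⟨c1 + c2, by rw [iterate_map_add, hc1, hc2, Int.cast_add]⟩
  | smul n a ha =>
    obtain ⟨m1, h1⟩ := ha
    refine ⟨m1, fun m hm => ?_⟩
    obtain ⟨c1, hc1⟩ := h1 m hm
    refine ⟨n * c1, ?_⟩
    rw [zsmul_eq_mul, iterate_map_mul, hc1, Int.cast_mul]
    congr 1
    clear hc1 hm
    induction m with
    | zero => rfl
    | succ m ih => rw [Function.iterate_succ_apply, map_intCast, ih]

/-- the free ring fails the left strong rank condition -/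
theorem RR_not : ¬ LSRC RR := by
  intro h
  refine h 1 one_pos ⟨{
    toFun := fun v _ => v 0 * gen 0 + v 1 * gen 1
    map_add' := fun v w => by
      funext _
      simp only [Pi.add_apply, add_mul]
      abel
    map_smul' := fun c v => by
      funext _
      simp only [Pi.smul_apply, smul_eq_mul, RingHom.id_apply, mul_add, mul_assoc] }, ?_⟩
  rw [injective_iff_map_eq_zero]
  intro v hv
  have hv' : v 0 * gen 0 + v 1 * gen 1 = 0 := congrFun hv 0
  have h0 : ∀ w, (v 0).coeff w = 0 := by
    intro w
    have h1 := congrArg (fun r : RR => r.coeff (w * FreeMonoid.of 0)) hv'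
    simp only [MonoidAlgebra.coeff_add, Finsupp.add_apply, gen, MonoidAlgebra.of_apply,
      MonoidAlgebra.coeff_mul_single_mul] at h1
    rw [MonoidAlgebra.coeff_mul_single_of_forall_mul_ne] at h1
    · simpa using h1
    · intro d hd
      have := congrArg (fun l : List ℕ => l.getLast?) (congrArg FreeMonoid.toList hd)
      simp at this
  have h0' : ∀ w, (v 1).coeff w = 0 := by
    intro w
    have h1 := congrArg (fun r : RR => r.coeff (w * FreeMonoid.of 1)) hv'
    simp only [MonoidAlgebra.coeff_add, Finsupp.add_apply, gen, MonoidAlgebra.of_apply,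
      MonoidAlgebra.coeff_mul_single_mul] at h1
    rw [MonoidAlgebra.coeff_mul_single_of_forall_mul_ne] at h1
    · simpa using h1
    · intro d hd
      have := congrArg (fun l : List ℕ => l.getLast?) (congrArg FreeMonoid.toList hd)
      simp at this
  funext i
  fin_cases i
  · exact MonoidAlgebra.ext (Finsupp.ext fun w => h0 w)
  · exact MonoidAlgebra.ext (Finsupp.ext fun w => h0' w)

/-- The action of the additive monoid of naturals on the free ring by powers of `sig`. -/
noncomputable instance instAct : MulSemiringAction (Multiplicative ℕ) RR :=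
  MulSemiringAction.compHom RR (powersHom (RR →+* RR) sig)

theorem phi_eq : (SkewPolynomial.φ : RR →+* RR) = sig := by
  refine RingHom.ext fun r => ?_
  rw [SkewPolynomial.φ_def, MulSemiringAction.toRingHom_apply]
  change (powersHom (RR →+* RR) sig (Multiplicative.ofAdd 1)) • r = sig r
  rw [powersHom_apply]
  simp

open SkewPolynomial

theorem term_eq (i : ℕ) (r : RR) : CRingHom r * X ^ i = (monomial i r : SkewPolynomial RR) := by
  rw [CRingHom_eq_C, C_mul_X_pow_eq_monomial]

/-- the sum map -/
noncomputable def F (p : ℕ →₀ RR) : SkewPolynomial RR := p.sum fun i r => CRingHom r * X ^ i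

theorem F_add (p q : ℕ →₀ RR) : F (p + q) = F p + F q := by
  unfold F
  refine Finsupp.sum_add_index' (fun i => ?_) (fun i a b => ?_)
  · rw [map_zero, zero_mul]
  · rw [map_add, add_mul]

theorem F_single (i : ℕ) (r : RR) : F (Finsupp.single i r) = monomial i r := by
  unfold F
  rw [Finsupp.sum_single_index (by rw [map_zero, zero_mul]), term_eq]

theorem F_coeff (p : ℕ →₀ RR) (n : ℕ) : (F p).coeff n = p n := by
  induction p using Finsupp.induction_linear with
  | zero => simp [F]
  | add p q hp hq => rw [F_add, coeff_add, hp, hq, Finsupp.add_apply]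
  | single i r => rw [F_single, coeff_monomial, Finsupp.single_apply]

theorem F_surj : Function.Surjective F := by
  intro s
  induction s using SkewPolynomial.induction with
  | h0 => exact ⟨0, by simp [F]⟩
  | ha n r q _ _ hq =>
    obtain ⟨p, hp⟩ := hq
    exact ⟨Finsupp.single n r + p, by rw [F_add, F_single, hp]⟩

theorem ore : IsOreExtension (S := SkewPolynomial RR) sig 0 CRingHom X := by
  refine ⟨?_, ?_, F_surj⟩
  · intro r
    rw [AddMonoidHom.zero_apply, map_zero, add_zero, CRingHom_eq_C, CRingHom_eq_C, X_mul,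
      sum_C_index (by simp), phi_eq]
    rfl
  · intro p q hpq
    refine Finsupp.ext fun n => ?_
    rw [← F_coeff, ← F_coeff]
    exact congrArg (fun s : SkewPolynomial RR => s.coeff n) hpq

/-- integer polynomials inside the Ore extension -/
noncomputable def J : Polynomial ℤ →ₐ[ℤ] SkewPolynomial RR := Polynomial.aeval X

theorem J_X : J Polynomial.X = X := Polynomial.aeval_X _

theorem J_C (c : ℤ) : J (Polynomial.C c) = CRingHom (c : RR) := by
  rw [map_intCast, J, Polynomial.aeval_C]
  exact eq_intCast (algebraMap ℤ (SkewPolynomial RR)) c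

theorem J_monomial (n : ℕ) (c : ℤ) : J (Polynomial.monomial n c) = monomial n (c : RR) := by
  rw [← Polynomial.C_mul_X_pow_eq_monomial, map_mul, map_pow, J_X, ← term_eq, J_C]

theorem J_coeff (p : Polynomial ℤ) (n : ℕ) : (J p).coeff n = (p.coeff n : RR) := by
  induction p using Polynomial.induction_on' with
  | add p q hp hq => rw [map_add, coeff_add, hp, hq, Polynomial.coeff_add, Int.cast_add]
  | monomial i c =>
    rw [J_monomial, coeff_monomial, Polynomial.coeff_monomial]
    split_ifs <;> simp

theorem cast_inj {a : ℤ} (h : (a : RR) = 0) : a = 0 := by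
  have h1 := congrArg (fun r : RR => r.coeff 1) h
  have h2 : (a : RR) = MonoidAlgebra.single 1 a := MonoidAlgebra.intCast_def a
  rw [h2] at h1
  simpa using h1

theorem J_inj {p : Polynomial ℤ} (h : J p = 0) : p = 0 := by
  refine Polynomial.ext fun n => ?_
  rw [Polynomial.coeff_zero]
  apply cast_inj
  rw [← J_coeff, h]
  rfl

theorem good (s : SkewPolynomial RR) : ∃ m0 : ℕ, ∀ m, m0 ≤ m →
    ∃ p : Polynomial ℤ, X ^ m * s = J p * X ^ m := by
  induction s using SkewPolynomial.induction with
  | h0 => exact ⟨0, fun m _ => ⟨0, by rw [mul_zero, map_zero, zero_mul]⟩⟩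
  | ha n r q _ _ hq =>
    obtain ⟨m1, h1⟩ := sig_iter r
    obtain ⟨m2, h2⟩ := hq
    refine ⟨max m1 m2, fun m hm => ?_⟩
    obtain ⟨c, hc⟩ := h1 m ((le_max_left _ _).trans hm)
    obtain ⟨p, hp⟩ := h2 m ((le_max_right _ _).trans hm)
    refine ⟨Polynomial.monomial n c + p, ?_⟩
    rw [mul_add, hp, map_add, add_mul]
    congr 1
    rw [J_monomial, X_pow_mul_monomial, monomial_mul_X_pow, phi_eq, hc]

theorem S_lsrc : LSRC (SkewPolynomial RR) := by
  rintro n - ⟨f, hf⟩
  -- matrix
  obtain ⟨M, hM⟩ : ∃ M : Fin (n + 1) → Fin n → SkewPolynomial RR,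
      M = fun i => f (Pi.single i 1) := ⟨_, rfl⟩
  have hfv : ∀ v : Fin (n + 1) → SkewPolynomial RR, f v = ∑ i, v i • M i := by
    intro v
    conv_lhs => rw [pi_eq_sum_univ' v]
    rw [map_sum]
    refine Finset.sum_congr rfl fun i _ => ?_
    rw [map_smul, hM]
  choose m0 hm0 using fun i j => good (M i j)
  obtain ⟨m, hm⟩ : ∃ m, ∀ i j, m0 i j ≤ m :=
    ⟨∑ i, ∑ j, m0 i j, fun i j =>
      (Finset.single_le_sum (f := fun j => m0 i j) (fun _ _ => Nat.zero_le _) (Finset.mem_univ j)).trans
      (Finset.single_le_sum (f := fun i => ∑ j, m0 i j) (fun _ _ => Nat.zero_le _) (Finset.mem_univ i))⟩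
  choose p hp using fun i j => hm0 i j m (hm i j)
  -- a relation over the integer polynomials
  obtain ⟨g, hg⟩ : ∃ g : (Fin (n + 1) → Polynomial ℤ) →ₗ[Polynomial ℤ] (Fin n → Polynomial ℤ),
      ∀ w j, g w j = ∑ i, w i * p i j := by
    refine ⟨{ toFun := fun w j => ∑ i, w i * p i j
              map_add' := fun v w => ?_
              map_smul' := fun c v => ?_ }, fun w j => rfl⟩
    · funext j
      simp only [Pi.add_apply, add_mul, Finset.sum_add_distrib]
    · funext j
      simp only [Pi.smul_apply, smul_eq_mul, RingHom.id_apply, Finset.mul_sum, mul_assoc]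
  have hgi : ¬ Function.Injective g := by
    intro h
    have := le_of_fin_injective (Polynomial ℤ) g h
    omega
  rw [injective_iff_map_eq_zero] at hgi
  push Not at hgi
  obtain ⟨w, hw, hw0⟩ := hgi
  obtain ⟨i0, hi0⟩ : ∃ i, w i ≠ 0 := by
    by_contra hcon
    push Not at hcon
    exact hw0 (funext hcon)
  obtain ⟨v, hv⟩ : ∃ v : Fin (n + 1) → SkewPolynomial RR, v = fun i => J (w i) * X ^ m := ⟨_, rfl⟩
  have hfv0 : f v = 0 := by
    rw [hfv]
    funext j
    rw [Finset.sum_apply]
    have e1 : ∀ i, (v i • M i) j = J (w i * p i j) * X ^ m := by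
      intro i
      rw [Pi.smul_apply, smul_eq_mul, hv]
      simp only
      rw [mul_assoc, hp, ← mul_assoc, map_mul]
    simp only [e1]
    rw [← Finset.sum_mul, ← map_sum, ← hg, hw]
    simp
  have hv0 : v = 0 := hf (by rw [hfv0, map_zero])
  have h1 : J (w i0 * Polynomial.X ^ m) = 0 := by
    rw [map_mul, map_pow, J_X]
    have := congrFun hv0 i0
    rw [hv] at this
    exact this
  have h2 := J_inj h1
  rcases mul_eq_zero.mp h2 with h3 | h3
  · exact hi0 h3
  · exact pow_ne_zero m Polynomial.X_ne_zero h3

/-- There are a ring `R`, a surjective endomorphism of `R` and a twisted derivation such that the Ore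
extension satisfies the left strong rank condition while `R` does not. -/
theorem result : ∃ (R S : Type) (_ : Ring R) (_ : Ring S) (σ : R →+* R) (δ : R →+ R) (ι : R →+* S)
    (x : S), Function.Surjective σ ∧ (∀ r s : R, δ (r * s) = δ r * s + σ r * δ s) ∧
      IsOreExtension σ δ ι x ∧ LSRC S ∧ ¬ LSRC R :=
  ⟨RR, SkewPolynomial RR, inferInstance, inferInstance, sig, 0, CRingHom, X, sig_surj,
    fun r s => by simp, ore, S_lsrc, RR_not⟩

end Pool.Agent.Results.MP_5f6a82_al.SurjectiveTwist
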